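import Pool.Agent.Helper99.EXC.GoalsS

set_option autoImplicit false

/-! # EXC SA: the truncated potentials, first group of properties -/

open Finset

namespace Pool.Agent.Helper38.EXC

open Pool.Agent.Helper99.ERW Pool.Agent.Helper99.EXC

theorem vec_add_vec (l : Fin 2) : vec ((l, true) : Dir 2) + vec (l, false) = 0 := by
  funext i
  unfold vec
  by_cases h : i = l
  · subst h; simp
  · simp [Pi.single_eq_of_ne h]

theorem sd_eq (φ : Site 2 → ℝ) (l : Fin 2) (x : Site 2) : secondDiff φ l x =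
    -(φ (x + vec (l, true) + vec (l, false)) - φ (x + vec (l, true)) -
      φ (x + vec (l, false)) + φ x) := by
  rw [add_assoc, vec_add_vec, add_zero, secondDiff]
  ring

theorem nm_nonneg (x : Site 2) : 0 ≤ nm x := le_max_of_le_left (abs_nonneg _)

theorem nm_le_of_mem {b k : ℕ} {x : Site 2} (hx : x ∈ Bx b k) : nm x ≤ b * 2 ^ k := by
  unfold Bx at hx
  rw [mem_box] at hx
  have h : ∀ l, |((x l : ℤ) : ℝ)| ≤ b * 2 ^ k := by
    intro l
    have := hx l
    exact_mod_cast this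
  exact max_le (h 0) (h 1)

theorem le_nm_of_notMem {b k : ℕ} {x : Site 2} (hx : x ∉ Bx b k) : (b : ℝ) * 2 ^ k + 1 ≤ nm x := by
  unfold Bx at hx
  rw [mem_box] at hx
  push Not at hx
  obtain ⟨l, hl⟩ := hx
  have h1 : ((b * 2 ^ k : ℕ) : ℤ) + 1 ≤ |x l| := hl
  have h2 : ((b : ℝ) * 2 ^ k) + 1 ≤ |((x l : ℤ) : ℝ)| := by exact_mod_cast h1
  refine h2.trans ?_
  unfold nm
  fin_cases l
  · exact le_max_left _ _
  · exact le_max_right _ _

theorem nm_add_vec (x : Site 2) (e : Dir 2) : nm x - 1 ≤ nm (x + vec e) := by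
  have h : ∀ l, |((x l : ℤ) : ℝ)| - 1 ≤ |(((x + vec e) l : ℤ) : ℝ)| := by
    intro l
    have h1 := abs_vec_le e l
    have h2 : |((vec e l : ℤ) : ℝ)| ≤ 1 := by exact_mod_cast h1
    have h3 : (((x + vec e) l : ℤ) : ℝ) = (x l : ℝ) + (vec e l : ℝ) := by
      rw [Pi.add_apply]; push_cast; ring
    rw [h3]
    have h4 : |((x l : ℤ) : ℝ)| = |((x l : ℝ) + (vec e l : ℝ)) - (vec e l : ℝ)| := by
      congr 1; ring
    have h5 := abs_sub ((x l : ℝ) + (vec e l : ℝ)) (vec e l : ℝ)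
    rw [h4]
    linarith
  unfold nm
  rw [sub_le_iff_le_add]
  refine max_le ?_ ?_
  · have := h 0
    have := le_max_left |(((x + vec e) 0 : ℤ) : ℝ)| |(((x + vec e) 1 : ℤ) : ℝ)|
    linarith
  · have := h 1
    have := le_max_right |(((x + vec e) 0 : ℤ) : ℝ)| |(((x + vec e) 1 : ℤ) : ℝ)|
    linarith

theorem logb_two_pow_mul {c : ℝ} (hc : 0 < c) (k : ℕ) :
    Real.logb 2 (c * 2 ^ k) = Real.logb 2 c + k := by
  rw [Real.logb_mul hc.ne' (by positivity), Real.logb_pow, Real.logb_self_eq_one (by norm_num)]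
  ring

section
variable {a : ℝ} {φ : Site 2 → ℝ} {κ C0 : ℝ}

theorem lower (hK : Ker a φ κ C0) {b : ℕ} (hb : (2 : ℝ) ^ ((C0 + 1) / κ) ≤ b) (hb1 : 1 ≤ b)
    (k : ℕ) (y : Site 2) (hy : (b : ℝ) * 2 ^ k ≤ nm y) : κ * k + 1 ≤ φ y := by
  have h1 := (abs_le.1 (hK.log y)).1
  have hbp : (0 : ℝ) < b := by exact_mod_cast hb1
  have h2 : Real.logb 2 (b * 2 ^ k) ≤ Real.logb 2 (1 + nm y) :=
    Real.logb_le_logb_of_le (by norm_num) (by positivity) (by linarith)
  rw [logb_two_pow_mul hbp] at h2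
  have h3 : (C0 + 1) / κ ≤ Real.logb 2 b := by
    rw [Real.le_logb_iff_rpow_le (by norm_num) hbp]
    exact hb
  rw [div_le_iff₀ hK.kpos] at h3
  have h4 : κ * (Real.logb 2 b + k) ≤ κ * Real.logb 2 (1 + nm y) :=
    mul_le_mul_of_nonneg_left h2 hK.kpos.le
  nlinarith

theorem upper (hK : Ker a φ κ C0) (b k : ℕ) (y : Site 2) (hy : nm y ≤ (b : ℝ) * 2 ^ k) :
    φ y ≤ κ * (Real.logb 2 (1 + b) + k) + C0 := by
  have h1 := (abs_le.1 (hK.log y)).2
  have h0 := nm_nonneg y
  have hk : (1 : ℝ) ≤ 2 ^ k := one_le_pow₀ (by norm_num)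
  have h2 : Real.logb 2 (1 + nm y) ≤ Real.logb 2 ((1 + b) * 2 ^ k) :=
    Real.logb_le_logb_of_le (by norm_num) (by positivity) (by nlinarith)
  rw [logb_two_pow_mul (by positivity)] at h2
  have h4 : κ * Real.logb 2 (1 + nm y) ≤ κ * (Real.logb 2 (1 + b) + k) :=
    mul_le_mul_of_nonneg_left h2 hK.kpos.le
  linarith

end

theorem SA (hFFP : FFP_stmt) : SA_stmt := by
  obtain ⟨f1, f2, f3, f4, f5, _⟩ := hFFP
  intro a φ κ C0 hK
  refine ⟨max 1 ⌈(2 : ℝ) ^ ((C0 + 1) / κ)⌉₊, fun b hb => ?_⟩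
  have hb1 : 1 ≤ b := (le_max_left _ _).trans hb
  have hb2 : (2 : ℝ) ^ ((C0 + 1) / κ) ≤ b :=
    (Nat.le_ceil _).trans (by exact_mod_cast (le_max_right _ _).trans hb)
  have hbp : (0 : ℝ) < b := by exact_mod_cast hb1
  have hlog : 0 ≤ Real.logb 2 (1 + b) := Real.logb_nonneg (by norm_num) (by linarith)
  have hκ := hK.kpos
  have hC0 := hK.cone
  have hkl : 0 ≤ κ * Real.logb 2 (1 + b) := mul_nonneg hκ.le hlog
  set C := κ * (Real.logb 2 (1 + b) + 2) + C0 + 1 with hC
  have hCC : C0 ≤ C := by rw [hC]; nlinarith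
  have hout : ∀ k, ∀ x, x ∉ Bx b k → Phi κ φ k x = φ x := by
    intro k x hx
    have h1 := le_nm_of_notMem hx
    have h2 := lower hK hb2 hb1 k x (by linarith)
    unfold Phi
    rw [f3 _ (by linarith)]
    ring
  have hout' : ∀ k, ∀ x, x ∉ Bx b k → ∀ e : Dir 2, Phi κ φ k (x + vec e) = φ (x + vec e) := by
    intro k x hx e
    have h1 := le_nm_of_notMem hx
    have h1' := nm_add_vec x e
    have h2 := lower hK hb2 hb1 k (x + vec e) (by linarith)
    unfold Phi
    rw [f3 _ (by linarith)]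
    ring
  refine ⟨C, 0, ?_, ?_, ?_, ?_, ?_, ?_, ?_, ?_⟩
  · intro x
    have h1 := (abs_le.1 (hK.log x)).1
    have h2 : 0 ≤ Real.logb 2 (1 + nm x) :=
      Real.logb_nonneg (by norm_num) (by linarith [nm_nonneg x])
    have h3 := mul_nonneg hκ.le h2
    linarith
  · intro x
    have h0 := nm_nonneg x
    have h1 : ∀ l, |secondDiff φ l x| ≤ C0 / (1 + nm x) ^ 2 := by
      intro l
      rw [sd_eq, abs_neg]
      exact hK.d2 x (l, true) (l, false)
    have h2 : |Df φ x| ≤ C0 / (1 + nm x) ^ 2 := by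
      unfold Df
      have g0 := abs_le.1 (h1 0)
      have g1 := abs_le.1 (h1 1)
      rw [abs_le]
      constructor <;> linarith
    refine h2.trans ?_
    gcongr
  · intro k x
    unfold Phi
    have := f1 (φ x - κ * k)
    linarith
  · intro k x
    unfold Phi
    have := f2 (φ x - κ * k)
    linarith
  · exact fun k _ x hx => hout k x hx
  · intro k _ x hx
    unfold Df secondDiff
    rw [hout k x hx, hout' k x hx, hout' k x hx, hout' k x hx, hout' k x hx]
  · intro k _ x hx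
    unfold Phi
    have h1 := upper hK b k x (nm_le_of_mem hx)
    have h2 := f2 (φ x - κ * k)
    have h3 : κ * k + FF (φ x - κ * k) - κ * k = FF (φ x - κ * k) := by ring
    rw [h3, abs_of_nonneg (by linarith)]
    rcases le_total (φ x - κ * k) 0 with h | h
    · rw [f4 _ h]
      linarith
    · have h4 := f5 (φ x - κ * k)
      rw [abs_of_nonneg h] at h4
      rw [hC]
      nlinarith
  · intro k s _ hks x hx
    unfold Phi
    have h1 := upper hK b (s + 2) x (nm_le_of_mem hx)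
    push_cast at h1
    have hks' : κ * (k : ℝ) ≤ κ * s := mul_le_mul_of_nonneg_left (by exact_mod_cast hks) hκ.le
    rcases le_total (φ x - κ * k) 0 with h | h
    · rw [f4 _ h]
      linarith
    · have h4 := f5 (φ x - κ * k)
      rw [abs_of_nonneg h] at h4
      rw [hC]
      nlinarith

end Pool.Agent.Helper38.EXC
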